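import Mathlib

set_option autoImplicit false

namespace Pool.Agent.H.MP_1020fe_co

open Matrix

def M4 (a b c d w1 w2 v1 v2 s : ℝ) : Matrix (Fin 4) (Fin 4) ℝ :=
  !![a, b, 0, w1; c, d, 0, w2; v1, v2, 0, 0; 0, 0, s, 0]

lemma eval4 (a b c d w1 w2 v1 v2 s x : ℝ) :
    (M4 a b c d w1 w2 v1 v2 s).charpoly.eval x =
      x ^ 2 * ((x - a) * (x - d) - b * c) -
        s * (v1 * (w1 * (x - d) + b * w2) + v2 * (c * w1 + w2 * (x - a))) := by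
  rw [Matrix.eval_charpoly]
  have : Matrix.scalar (Fin 4) x - M4 a b c d w1 w2 v1 v2 s =
      !![x - a, -b, 0, -w1; -c, x - d, 0, -w2; -v1, -v2, x, 0; 0, 0, -s, x] := by
    ext i j
    fin_cases i <;> fin_cases j <;> simp [M4]
  rw [this]
  simp [Matrix.det_succ_row_zero, Fin.sum_univ_succ, Fin.succAbove]
  ring

def M8 (δ g2 t s1 α g1 u s2 β g3 s3 g4 vg v1 v3 v4 s4 s5 s6 : ℝ) : Matrix (Fin 8) (Fin 8) ℝ :=
  !![δ, 0, 0, g2, 0, 0, 0, t;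
     s1, α, 0, g1, 0, 0, 0, u;
     0, s2, β, g3, 0, 0, 0, 0;
     0, 0, s3, g4, 0, 0, 0, 0;
     vg, v1, v3, v4, 0, 0, 0, 0;
     0, 0, 0, 0, s4, 0, 0, 0;
     0, 0, 0, 0, 0, s5, 0, 0;
     0, 0, 0, 0, 0, 0, s6, 0]

def hh (α g1 s2 β g3 s3 g4 x : ℝ) : ℝ :=
  (x - α) * ((x - β) * (x - g4) - s3 * g3) - s2 * s3 * g1

def chi (δ g2 s1 α g1 s2 β g3 s3 g4 x : ℝ) : ℝ :=
  (x - δ) * hh α g1 s2 β g3 s3 g4 x - s1 * s2 * s3 * g2

def rr (δ g2 t s1 α g1 u s2 β g3 s3 g4 vg v1 v3 v4 x : ℝ) : ℝ :=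
  vg * (t * hh α g1 s2 β g3 s3 g4 x + u * s2 * s3 * g2) +
    (u * (x - δ) + s1 * t) *
      (v1 * ((x - β) * (x - g4) - s3 * g3) + s2 * v3 * (x - g4) + s2 * s3 * v4)

lemma eval8 (δ g2 t s1 α g1 u s2 β g3 s3 g4 vg v1 v3 v4 s4 s5 s6 x : ℝ) (hx : x ≠ 0) :
    (M8 δ g2 t s1 α g1 u s2 β g3 s3 g4 vg v1 v3 v4 s4 s5 s6).charpoly.eval x =
      x ^ 4 * chi δ g2 s1 α g1 s2 β g3 s3 g4 x -
        s4 * s5 * s6 * rr δ g2 t s1 α g1 u s2 β g3 s3 g4 vg v1 v3 v4 x := by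
  rw [Matrix.eval_charpoly]
  let P : Matrix (Fin 4) (Fin 4) ℝ :=
    !![x - δ, 0, 0, -g2; -s1, x - α, 0, -g1; 0, -s2, x - β, -g3; 0, 0, -s3, x - g4]
  let Q : Matrix (Fin 4) (Fin 4) ℝ := !![0, 0, 0, -t; 0, 0, 0, -u; 0, 0, 0, 0; 0, 0, 0, 0]
  let R : Matrix (Fin 4) (Fin 4) ℝ :=
    !![-vg, -v1, -v3, -v4; 0, 0, 0, 0; 0, 0, 0, 0; 0, 0, 0, 0]
  let S : Matrix (Fin 4) (Fin 4) ℝ := !![x, 0, 0, 0; -s4, x, 0, 0; 0, -s5, x, 0; 0, 0, -s6, x]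
  let k : ℝ := s4 * s5 * s6
  let Z : Matrix (Fin 4) (Fin 4) ℝ :=
    !![x ^ 3 * vg, x ^ 3 * v1, x ^ 3 * v3, x ^ 3 * v4;
       s4 * x ^ 2 * vg, s4 * x ^ 2 * v1, s4 * x ^ 2 * v3, s4 * x ^ 2 * v4;
       s4 * s5 * x * vg, s4 * s5 * x * v1, s4 * s5 * x * v3, s4 * s5 * x * v4;
       k * vg, k * v1, k * v3, k * v4]
  let y : ℝ := x ^ 4
  let T : Matrix (Fin 4) (Fin 4) ℝ :=
    !![y * (x - δ) - t * k * vg, -(t * k * v1), -(t * k * v3), -(y * g2) - t * k * v4;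
       -(y * s1) - u * k * vg, y * (x - α) - u * k * v1, -(u * k * v3), -(y * g1) - u * k * v4;
       0, -(y * s2), y * (x - β), -(y * g3); 0, 0, -(y * s3), y * (x - g4)]
  have e1 : Matrix.scalar (Fin 8) x - M8 δ g2 t s1 α g1 u s2 β g3 s3 g4 vg v1 v3 v4 s4 s5 s6 =
      Matrix.reindex (finSumFinEquiv (m := 4) (n := 4)) finSumFinEquiv (fromBlocks P Q R S) := by
    rw [← Equiv.symm_apply_eq]
    ext i j
    rcases i with i | i <;> rcases j with j | j <;> fin_cases i <;> fin_cases j <;>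
      simp [M8, P, Q, R, S, finSumFinEquiv, Fin.castAdd, Fin.natAdd, Fin.castLE]
  have e2 : fromBlocks P Q R S * fromBlocks (y • (1 : Matrix (Fin 4) (Fin 4) ℝ)) 0 Z 1 =
      fromBlocks T Q 0 S := by
    rw [fromBlocks_multiply]
    congr 1
    · ext i j
      fin_cases i <;> fin_cases j <;>
        simp [P, Q, Z, T] <;> ring
    · simp
    · ext i j
      fin_cases i <;> fin_cases j <;>
        simp [R, S, Z, y, k] <;> ring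
    · simp
  have e3 := congrArg Matrix.det e2
  rw [det_mul, det_fromBlocks_zero₁₂, det_fromBlocks_zero₂₁, det_smul, det_one] at e3
  have e4 : S.det = y := by
    simp [S, y, Matrix.det_succ_row_zero, Fin.sum_univ_succ, Fin.succAbove]
    ring
  have e5 : T.det = y ^ 3 * (y * chi δ g2 s1 α g1 s2 β g3 s3 g4 x -
      k * rr δ g2 t s1 α g1 u s2 β g3 s3 g4 vg v1 v3 v4 x) := by
    simp [T, chi, rr, hh, Matrix.det_succ_row_zero, Fin.sum_univ_succ, Fin.succAbove]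
    ring
  rw [e1, det_reindex_self]
  rw [e4, e5] at e3
  have hy : y ^ 4 ≠ 0 := pow_ne_zero _ (pow_ne_zero _ hx)
  apply mul_right_cancel₀ hy
  simp only [Fintype.card_fin, mul_one] at e3
  rw [e3]
  ring

end Pool.Agent.H.MP_1020fe_co
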